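import Pool.Agent.LagRig.Final

/-! Rigidity of absolutely continuous Lagrangian critical points for the kernel
`K(z) = -|z|^q`, `0 < q < 1`, on three-dimensional Euclidean space. -/

open MeasureTheory Set Filter Topology

noncomputable section

namespace Pool.Agent.Results.MP_156fd4_an.Rigidity

/-- Euclidean three-space. -/
abbrev R3 := EuclideanSpace ℝ (Fin 3)

/-- The gradient `∇K(z) = -q |z|^{q-2} z` of the kernel `K(z) = -|z|^q`
(it vanishes at `z = 0`). -/
def gradK (q : ℝ) (z : R3) : R3 := -(q * ‖z‖ ^ (q - 2)) • z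

/-- The signed measure `ρ - μ`. -/
def diff (ρ μ : Measure R3) [IsFiniteMeasure ρ] [IsFiniteMeasure μ] : SignedMeasure R3 :=
  ρ.toSignedMeasure - μ.toSignedMeasure

/-- Absolute convergence of `∫ ∇K(x-y) d(ρ-μ)(y)`, that is `∫ |∇K(x-y)| d|ρ-μ|(y) < ∞`. -/
def AbsConv (q : ℝ) (ρ μ : Measure R3) [IsFiniteMeasure ρ] [IsFiniteMeasure μ] (x : R3) : Prop :=
  Integrable (fun y => gradK q (x - y)) (diff ρ μ).totalVariation

open scoped Classical in
/-- The field `g_ρ(x) = ∫ ∇K(x-y) d(ρ-μ)(y)` where this integral converges absolutely, and `0`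
elsewhere. The integral against `ρ - μ` is the difference of the integrals against the positive
and the negative part of its Jordan decomposition. -/
def field (q : ℝ) (ρ μ : Measure R3) [IsFiniteMeasure ρ] [IsFiniteMeasure μ] (x : R3) : R3 :=
  if AbsConv q ρ μ x then
    (∫ y, gradK q (x - y) ∂(diff ρ μ).toJordanDecomposition.posPart) -
      ∫ y, gradK q (x - y) ∂(diff ρ μ).toJordanDecomposition.negPart
  else 0

/-- `ρ` is a Lagrangian critical point of `E_μ`. -/
structure LagrangianCritical (q : ℝ) (ρ μ : Measure R3) [IsFiniteMeasure ρ]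
    [IsFiniteMeasure μ] : Prop where
  absConv : ∀ᵐ x ∂ρ, AbsConv q ρ μ x
  locInt : LocallyIntegrable (field q ρ μ) ρ
  vanish : ∀ᵐ x ∂ρ, field q ρ μ x = 0

open Pool.Agent.LagRig in
lemma integrable_vec {q : ℝ} (hq1 : q < 1) {τ : Measure R3} [IsFiniteMeasure τ]
    {x : R3} (h : Integrable (fun z => rk q (x - z)) τ) :
    Integrable (fun z => rk q (x - z) • (x - z)) τ := by
  have hm := measurable_rk q
  have hmeas : Measurable (fun z : R3 => rk q (x - z) • (x - z)) := by fun_prop
  refine Integrable.mono' (h.add (integrable_const (1 : ℝ))) hmeas.aestronglyMeasurable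
    (Eventually.of_forall fun z => ?_)
  rw [norm_smul, Real.norm_of_nonneg (rk_nonneg _ _)]
  simp only [Pi.add_apply]
  rcases le_total ‖x - z‖ 1 with h1 | h1
  · have := mul_le_mul_of_nonneg_left h1 (rk_nonneg q (x - z))
    linarith
  · have h0 : 0 < ‖x - z‖ := by linarith
    have h2 : rk q (x - z) * ‖x - z‖ = ‖x - z‖ ^ (q - 1) := by
      unfold rk
      rw [show q - 1 = (q - 2) + 1 by ring, Real.rpow_add h0, Real.rpow_one]
    rw [h2]
    have h3 : ‖x - z‖ ^ (q - 1) ≤ 1 := Real.rpow_le_one_of_one_le_of_nonpos h1 (by linarith)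
    have := rk_nonneg q (x - z)
    linarith

open Pool.Agent.LagRig in
/-- For every `q ∈ (0,1)` and all Borel probability measures `μ`, `ρ` on three-space with finite
moment of order `q`: if `ρ` is absolutely continuous and a Lagrangian critical point of `E_μ`,
then `ρ = μ`. -/
theorem result : ∀ q : ℝ, 0 < q → q < 1 → ∀ (μ ρ : Measure R3) [IsProbabilityMeasure μ]
    [IsProbabilityMeasure ρ], Integrable (fun x => ‖x‖ ^ q) μ → Integrable (fun x => ‖x‖ ^ q) ρ →
    ρ ≪ volume → LagrangianCritical q ρ μ → ρ = μ := by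
  intro q hq0 hq1 μ ρ _ _ hμ hρ hac hcrit
  refine rigidity hq0 hq1 μ ρ hμ hρ hac ?_
  set P := (diff ρ μ).toJordanDecomposition.posPart with hP
  set Q := (diff ρ μ).toJordanDecomposition.negPart with hQ
  have hPf : IsFiniteMeasure P := (diff ρ μ).toJordanDecomposition.posPart_finite
  have hQf : IsFiniteMeasure Q := (diff ρ μ).toJordanDecomposition.negPart_finite
  have hmeas : ρ + Q = μ + P := by
    have h1 : (diff ρ μ) = P.toSignedMeasure - Q.toSignedMeasure :=
      (SignedMeasure.toSignedMeasure_toJordanDecomposition (diff ρ μ)).symm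
    have h2 : (ρ + Q).toSignedMeasure = (μ + P).toSignedMeasure := by
      rw [Measure.toSignedMeasure_add, Measure.toSignedMeasure_add]
      unfold diff at h1
      rw [sub_eq_sub_iff_add_eq_add] at h1
      rw [h1, add_comm]
    exact Measure.toSignedMeasure_eq_toSignedMeasure_iff.mp h2
  have h1 := hac.ae_le (ae_integrable_rk hq0 hq1 μ)
  have h2 := hac.ae_le (ae_integrable_rk hq0 hq1 ρ)
  filter_upwards [h1, h2, hcrit.absConv, hcrit.vanish] with x hx1 hx2 hx3 hx4
  have i1 := integrable_vec hq1 hx1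
  have i2 := integrable_vec hq1 hx2
  have hg : ∀ y : R3, gradK q (x - y) = (-q) • (rk q (x - y) • (x - y)) := by
    intro y
    unfold gradK rk
    rw [smul_smul, neg_mul]
  have hTV : Integrable (fun y => gradK q (x - y)) (P + Q) := hx3
  have hTV' : Integrable (fun y => rk q (x - y) • (x - y)) (P + Q) := by
    have h3 := hTV.smul (-q)⁻¹
    refine h3.congr (Eventually.of_forall fun y => ?_)
    simp only [Pi.smul_apply]
    rw [hg, smul_smul, inv_mul_cancel₀ (by linarith [hq0] : (-q) ≠ 0), one_smul]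
  have i3 : Integrable (fun y => rk q (x - y) • (x - y)) P := hTV'.left_of_add_measure
  have i4 : Integrable (fun y => rk q (x - y) • (x - y)) Q := hTV'.right_of_add_measure
  unfold field at hx4
  rw [if_pos hx3] at hx4
  have e1 : ∫ y, gradK q (x - y) ∂P = (-q) • ∫ y, rk q (x - y) • (x - y) ∂P := by
    rw [← integral_smul]
    exact integral_congr_ae (Eventually.of_forall fun y => hg y)
  have e2 : ∫ y, gradK q (x - y) ∂Q = (-q) • ∫ y, rk q (x - y) • (x - y) ∂Q := by
    rw [← integral_smul]
    exact integral_congr_ae (Eventually.of_forall fun y => hg y)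
  have e3 : ∫ y, rk q (x - y) • (x - y) ∂P = ∫ y, rk q (x - y) • (x - y) ∂Q := by
    rw [← hP, ← hQ, e1, e2, ← smul_sub] at hx4
    rcases smul_eq_zero.mp hx4 with h | h
    · exfalso; linarith
    · exact sub_eq_zero.mp h
  have e4 : (∫ y, rk q (x - y) • (x - y) ∂ρ) + ∫ y, rk q (x - y) • (x - y) ∂Q =
      (∫ y, rk q (x - y) • (x - y) ∂μ) + ∫ y, rk q (x - y) • (x - y) ∂P := by
    rw [← integral_add_measure i2 i4, ← integral_add_measure i1 i3, hmeas]
  unfold vpot
  rw [e3] at e4
  exact add_right_cancel e4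

end Pool.Agent.Results.MP_156fd4_an.Rigidity
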